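import Pool.Agent.H527R2.SharpP
import Pool.Agent.H596R2.EndMem

/-!
# Counting order-preserving self-maps of a poset is `#P`-complete
-/

namespace Pool.Agent.NPC.H596

open Pool.Agent.H596R2 Pool.Agent.NPC.Cnt

theorem satCount_recover (φ : CNF ℕ) :
    satCount φ = recover φ (countEnd (mat1 φ)) (countEnd (mat2 φ)) := by
  unfold recover
  rw [← satCount_eq, ← card_satSets]
  unfold satCount
  rw [← Fintype.card_coe, ← Nat.card_eq_fintype_card]
  refine Nat.card_congr (Equiv.subtypeEquivRight fun S => ?_)
  rw [Finset.mem_filter, Finset.mem_powerset]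
  rfl

/-- The size of the number of self-maps. -/
theorem countEnd_size (M : List (List Bool)) : (countEnd M).size ≤
    ((Polynomial.X ^ 2 + 1 : Polynomial ℕ)).eval (sz M) := by
  classical
  have h1 : countEnd M ≤ 2 ^ (M.length * M.length) := by
    unfold countEnd
    split_ifs
    · calc Nat.card {f : Fin M.length → Fin M.length // ∀ i j, rel M i j → rel M (f i) (f j)}
          ≤ Nat.card (Fin M.length → Fin M.length) :=
            Nat.card_le_card_of_injective Subtype.val Subtype.val_injective
        _ = M.length ^ M.length := by simp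
        _ ≤ (2 ^ M.length) ^ M.length := Nat.pow_le_pow_left Nat.lt_two_pow_self.le _
        _ = 2 ^ (M.length * M.length) := by rw [pow_mul]
    · exact Nat.zero_le _
  have h2 : (countEnd M).size ≤ M.length * M.length + 1 :=
    Nat.size_le.2 (lt_of_le_of_lt h1 (Nat.pow_lt_pow_right (by norm_num) (Nat.lt_succ_self _)))
  have h3 := length_lt_sz M
  simp only [Polynomial.eval_add, Polynomial.eval_pow, Polynomial.eval_X, Polynomial.eval_one]
  nlinarith

theorem sharpP_countEnd : SharpP (strFn countEnd) := by
  have h := sharpP_typed (α := List (List Bool)) (γ := List Bool)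
    (fun M w => decide (w.length = (bits M).length) && mapB M w) ?_
    (Polynomial.C 4 * Polynomial.X + Polynomial.C 1) ?_
  · refine (congrArg SharpP (congrArg strFn (funext fun M => ?_))).mp h
    rw [← card_mapB]
    refine Nat.card_congr (Equiv.subtypeEquivRight fun w => ?_)
    rw [Bool.and_eq_true, decide_eq_true_iff]
    rfl
  · have hbits : Poly (fun a : List (List Bool) => bits a) :=
      poly_enc.comp (f := fun a : List (List Bool) => toT a) (Poly.toT' Poly.id)
    exact Poly.and (Poly.decide_eq (Poly.length (Poly.snd Poly.id))
      (Poly.length (hbits.comp (Poly.fst Poly.id)))) (poly_mapB (Poly.fst Poly.id)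
      (Poly.snd Poly.id))
  · intro M w h
    rw [Bool.and_eq_true, decide_eq_true_iff] at h
    have h1 := sz_listBool_le w
    rw [h.1, bits_length] at h1
    simpa using h1

theorem sharpPHard_countEnd : SharpPHard (strFn countEnd) := by
  refine sharpPHard_of_satCount (fun φ => [mat1 φ, mat2 φ])
    (fun s => recover s.1 (s.2.getD 0 0) (s.2.getD 1 0)) ?_ ?_ ?_
    (Polynomial.X ^ 2 + 1) countEnd_size
  · exact Poly.cons (poly_mat1 Poly.id) (Poly.cons (poly_mat2 Poly.id) (Poly.const []))
  · exact poly_recover (Poly.fst Poly.id)
      (Poly.getD (Poly.snd Poly.id) (Poly.const 0) (Poly.const 0))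
      (Poly.getD (Poly.snd Poly.id) (Poly.const 1) (Poly.const 0))
  · intro φ
    exact satCount_recover φ

end Pool.Agent.NPC.H596

namespace Pool.Agent.Results.MP_593132_lc.CountEndComplete

open Pool.Agent.H596R2 Pool.Agent.NPC.Cnt

/-- COUNT-END is `#P`-complete: the function assigning to (the code of) an `n × n` 0/1 matrix of a
partial order the number of order-preserving self-maps is in `#P`, and every function in `#P`
reduces to it by a polynomial-time Turing reduction. -/
theorem result : SharpP (strFn countEnd) ∧ SharpPHard (strFn countEnd) :=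
  ⟨Pool.Agent.NPC.H596.sharpP_countEnd, Pool.Agent.NPC.H596.sharpPHard_countEnd⟩

end Pool.Agent.Results.MP_593132_lc.CountEndComplete
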